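import Pool.Agent.V7H68.HF.Spec2
import Pool.Agent.V7H68.HZ.Fin2

/-!
Functions given by their zooms: the version with frequencies.
-/

namespace Pool.Agent.V7H68.HF

open Finset Real MeasureTheory SS MS UF HZ Filter
open scoped ENNReal

set_option linter.unusedSectionVars false

variable {ι : Type} [Fintype ι] [DecidableEq ι] {b : ℕ}

theorem imgOK3_of_zooms [Nonempty ι] (hIMG : S_IMG) (hb : 2 ≤ b) {R h : ℝ} (hh : 0 ≤ h)
    {g : (ι → ℝ) → ι → ℝ} (d : ℕ)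
    (h1 : ∀ (k : ℕ) (z : ι → ℕ), (∀ i, z i < b ^ k) → ∀ y ∈ cube ι, ‖zm (b ^ k) z g y‖ ≤ R)
    (h2 : ∀ ε : ℝ, 0 < ε → ∃ᶠ j : ℕ in atTop, FrqAt b d (Cd (Fintype.card ι) d) j g ∧
      RelAt b (Cd (Fintype.card ι) d) j (h + ε) g) : ImgOK (Fintype.card ι - h) (zm 1 0 g) := by
  intro F hF
  refine hIMG ι b hb R h hh (zm 1 0 g) (bz_of_zooms hb h1) d (fun ε hε => ?_) F hF
  refine (h2 ε hε).mono ?_
  rintro j ⟨hj1, hj2⟩
  refine ⟨?_, fun k z hz => ?_⟩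
  · obtain ⟨p, col, hc1, hc2⟩ := hj1
    refine ⟨p, col, fun x x' hx hx' hxx y hy => ?_, hc2⟩
    rw [zm_zm_one (by omega) x.1 x.2 hx, zm_zm_one (by omega) x'.1 x'.2 hx']
    exact hc1 x x' hx hx' hxx y hy
  · obtain ⟨s, hs1, hs2⟩ := hj2 k z hz
    refine ⟨s, hs1, fun y hy => ?_⟩
    obtain ⟨φ, hφ, hφ2⟩ := hs2 y hy
    refine ⟨φ, hφ, fun u hu => ?_⟩
    rw [zm_zm_one (by omega) (k + j) _ (low_lt hz hy)]
    exact hφ2 u hu

end Pool.Agent.V7H68.HF
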