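import Pool.Agent.V7H68.HF.ONE
import Pool.Agent.V7H68.HF.Fin3
import Pool.Agent.V7H11.HF.BN
import Pool.Agent.V7H11.HF.RCM
import Pool.Agent.V7H67.HF.LLN
import Pool.Agent.V7H33.HF.FQ1
import Pool.Agent.V7H30.HF.FRO
import Pool.Agent.V7H30.HF.IMG2
import Pool.Agent.V7H80.HF.FREQ

/-!
All pieces together.
-/

namespace Pool.Agent.V7H68.HF

theorem t_IMG' : S_IMG :=
  Pool.Agent.V7H30.HF.t_IMG t_ONE Pool.Agent.V7H11.HF.t_RCM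
    (Pool.Agent.V7H80.HF.t_FREQ Pool.Agent.V7H33.HF.t_FQ1 Pool.Agent.V7H11.HF.t_BN)
    Pool.Agent.V7H30.HF.t_FRO Pool.Agent.V7H67.HF.t_LLN Pool.Agent.V7H11.HF.t_BN

end Pool.Agent.V7H68.HF
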