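import Pool.Agent.V7H68.HF.PFll

/-!
The entropy of all functions of a class, with penalties.
-/

namespace Pool.Agent.V7H68.HF

open Finset Real MeasureTheory SS MS UF HZ Filter

set_option linter.unusedSectionVars false

theorem t_ONE : S_ONE := by
  intro ι _ _ _ b hb R t C hC hR ht A hE hE0 S hS hGR η hη
  have : NeZero b := ⟨by omega⟩
  have hbp : 0 < b := by omega
  have hb1 : (1:ℝ) < b := by exact_mod_cast (by omega : 1 < b)
  have hlb : 0 < log b := Real.log_pos hb1
  set m : ℝ := (Fintype.card ι : ℝ) with hm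
  have hm1 : 1 ≤ m := by
    rw [hm]
    exact_mod_cast Fintype.card_pos
  set K : ℝ := m * log b with hK
  have hK0 : 0 < K := by positivity
  set δ : ℝ := min (η / 3) K with hδ
  have hδ0 : 0 < δ := lt_min (by linarith) hK0
  have hδ1 : δ ≤ η / 3 := min_le_left _ _
  have hδ2 : δ ≤ K := min_le_right _ _
  have hτb : δ / (8 * m) ≤ log b := by
    rw [div_le_iff₀ (by positivity)]
    have e : log b * (8 * m) = 8 * K := by rw [hK]; ring
    rw [e]
    linarith
  have hC' : Zc b (R + 2) C := ⟨fun Z hZ => (hC.bz Z hZ).mono (by linarith), hC.zoom⟩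
  obtain ⟨r, hr0, hrK, hr1, hr2⟩ := Zp_exists_rate hC' hS hbp ht hτb
  have hfull := full3 hb hC hR ht hE0 hS hGR hδ0 hr0 hr1 hr2
  obtain ⟨D, hD0, hD⟩ := hr2 δ hδ0
  obtain ⟨N0, hN0⟩ := exists_nat_gt (3 * D / η)
  refine ⟨N0 + 1, fun N hN Z hZ => ?_⟩
  have h1 := hD N
  have h2 := Zp_psi_le_mem hC hS hbp ht hτb N hZ (Adm.nil)
  have h3 : Ee b t (δ / (8 * m)) N Z ∅ LinearMap.id = En b (ft Z t) N := by
    unfold Ee
    rw [pf_id]
    simp
  unfold Vv at h2
  rw [h3] at h2
  have hNr : 3 * D / η < N := lt_of_lt_of_le hN0 (by exact_mod_cast (by omega : N0 ≤ N))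
  rw [div_lt_iff₀ hη] at hNr
  have hN0' : (0:ℝ) ≤ N := by positivity
  have h5 : (K - hE - δ - δ) * N ≤ (r - δ) * N := mul_le_mul_of_nonneg_right (by linarith) hN0'
  have h7 : η / 3 * N ≤ (η - δ - δ) * N := mul_le_mul_of_nonneg_right (by linarith) hN0'
  have h8 : (K - hE - δ - δ) * N = (K - hE - η) * N + (η - δ - δ) * N := by ring
  linarith

end Pool.Agent.V7H68.HF
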