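import Pool.Agent.V7H68.HF.Pen

/-!
The smallest entropy rate of a class, with penalties.
-/

namespace Pool.Agent.V7H68.HF

open Finset Real MeasureTheory SS MS UF HZ

set_option linter.unusedSectionVars false

variable {ι : Type} [Fintype ι] [DecidableEq ι] {b : ℕ}

variable {R t τ : ℝ} {Z : (ι → ℝ) → ι → ℝ} {I : Finset ι} {P : (ι → ℝ) →ₗ[ℝ] (ι → ℝ)}
  {S : ((ι → ℝ) → ι → ℝ) → ℕ → ℝ}

/-- The value with the penalty. -/
noncomputable def Vv (b : ℕ) (t τ : ℝ) (S : ((ι → ℝ) → ι → ℝ) → ℕ → ℝ) (n : ℕ)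
    (Z : (ι → ℝ) → ι → ℝ) (I : Finset ι) (P : (ι → ℝ) →ₗ[ℝ] (ι → ℝ)) : ℝ :=
  Ee b t τ n Z I P + Pn b S n Z

theorem Vv_super [NeZero b] (hb : 0 < b) (hS : ∀ Z l, 0 ≤ S Z l) (hZ : Bz b R Z) (ht : |t| ≤ 1)
    (hP : Adm I P) (τ : ℝ) (k l : ℕ) : Vv b t τ S k Z I P + av (fun w : ι → Fin (b ^ k) =>
      Vv b t τ S l (zm (b ^ k) (dv w) Z) I P) - C0 ι (R2 ι R) ≤ Vv b t τ S (k + l) Z I P := by
  have h1 := Ee_super hb hZ ht hP τ k l
  have h2 := Pn_super (S := S) hb hS k l Z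
  unfold Vv
  rw [av_add]
  linarith

theorem Vv_nonneg (hb : 0 < b) (hS : ∀ Z l, 0 ≤ S Z l) (hZ : Bz b R Z) (ht : |t| ≤ 1)
    (hP : Adm I P) (hτ : τ ≤ log b) (k : ℕ) : 0 ≤ Vv b t τ S k Z I P :=
  add_nonneg (Ee_nonneg hb hZ ht hP hτ k) (Pn_nonneg hS k Z)

/-- The possible values, and the trivial upper bound. -/
def Vals3 (b : ℕ) (t τ : ℝ) (S : ((ι → ℝ) → ι → ℝ) → ℕ → ℝ) (C : Set ((ι → ℝ) → ι → ℝ)) (n : ℕ) : Set ℝ :=
  {x | x = n * (Fintype.card ι * log b) ∨ ∃ Z ∈ C, ∃ (I : Finset ι)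
    (P : (ι → ℝ) →ₗ[ℝ] (ι → ℝ)), Adm I P ∧ x = Vv b t τ S n Z I P}

/-- The smallest value. -/
noncomputable def psi3 (b : ℕ) (t τ : ℝ) (S : ((ι → ℝ) → ι → ℝ) → ℕ → ℝ) (C : Set ((ι → ℝ) → ι → ℝ)) (n : ℕ) : ℝ :=
  sInf (Vals3 b t τ S C n)

variable {C : Set ((ι → ℝ) → ι → ℝ)}

theorem Zp_vals_bdd (hC : Zc b R C) (hS : ∀ Z l, 0 ≤ S Z l) (hb : 0 < b) (ht : |t| ≤ 1) (hτ : τ ≤ log b) (n : ℕ) :
    ∀ x ∈ Vals3 b t τ S C n, 0 ≤ x := by
  have hb1 : (1:ℝ) ≤ b := by exact_mod_cast hb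
  have := Real.log_nonneg hb1
  rintro x (rfl | ⟨Z, hZ, I, P, hP, rfl⟩)
  · positivity
  · exact Vv_nonneg hb hS (hC.bz Z hZ) ht hP hτ n

theorem Zp_psi_nonneg (hC : Zc b R C) (hS : ∀ Z l, 0 ≤ S Z l) (hb : 0 < b) (ht : |t| ≤ 1) (hτ : τ ≤ log b) (n : ℕ) :
    0 ≤ psi3 b t τ S C n :=
  Real.sInf_nonneg (Zp_vals_bdd hC hS hb ht hτ n)

theorem Zp_psi_le (hC : Zc b R C) (hS : ∀ Z l, 0 ≤ S Z l) (hb : 0 < b) (ht : |t| ≤ 1) (hτ : τ ≤ log b) (n : ℕ) :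
    psi3 b t τ S C n ≤ n * (Fintype.card ι * log b) :=
  csInf_le ⟨0, fun x hx => Zp_vals_bdd hC hS hb ht hτ n x hx⟩ (Or.inl rfl)

theorem Zp_psi_le_mem (hC : Zc b R C) (hS : ∀ Z l, 0 ≤ S Z l) (hb : 0 < b) (ht : |t| ≤ 1) (hτ : τ ≤ log b) (n : ℕ)
    (hZ : Z ∈ C) (hP : Adm I P) : psi3 b t τ S C n ≤ Vv b t τ S n Z I P :=
  csInf_le ⟨0, fun x hx => Zp_vals_bdd hC hS hb ht hτ n x hx⟩ (Or.inr ⟨Z, hZ, I, P, hP, rfl⟩)

theorem Zp_psi_super [NeZero b] (hC : Zc b R C) (hS : ∀ Z l, 0 ≤ S Z l) (hb : 0 < b) (ht : |t| ≤ 1) (hτ : τ ≤ log b)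
    (k l : ℕ) : psi3 b t τ S C k + psi3 b t τ S C l - C0 ι (R2 ι R) ≤ psi3 b t τ S C (k + l) := by
  refine le_csInf ⟨_, Or.inl rfl⟩ ?_
  rintro x (rfl | ⟨Z, hZ, I, P, hP, rfl⟩)
  · have h1 := Zp_psi_le hC hS hb ht hτ k
    have h2 := Zp_psi_le hC hS hb ht hτ l
    have h3 := C0_nonneg (ι := ι) (R2 ι R)
    push_cast
    linarith
  · have h1 := Vv_super hb hS (hC.bz Z hZ) ht hP τ k l
    have h2 := Zp_psi_le_mem hC hS hb ht hτ k hZ hP
    have h3 : psi3 b t τ S C l ≤ av (fun w : ι → Fin (b ^ k) =>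
        Vv b t τ S l (zm (b ^ k) (dv w) Z) I P) := by
      rw [← av_const (Ω := ι → Fin (b ^ k)) (psi3 b t τ S C l)]
      exact av_mono fun w => Zp_psi_le_mem hC hS hb ht hτ l (hC.zoom Z hZ k _ (dv_lt w)) hP
    linarith

/-- The rate. -/
theorem Zp_exists_rate [NeZero b] (hC : Zc b R C) (hS : ∀ Z l, 0 ≤ S Z l) (hb : 0 < b) (ht : |t| ≤ 1) (hτ : τ ≤ log b) :
    ∃ r : ℝ, 0 ≤ r ∧ r ≤ Fintype.card ι * log b ∧
      (∀ n : ℕ, psi3 b t τ S C n ≤ r * n + C0 ι (R2 ι R)) ∧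
      ∀ η : ℝ, 0 < η → ∃ D : ℝ, 0 ≤ D ∧ ∀ n : ℕ, (r - η) * n - D ≤ psi3 b t τ S C n := by
  have hb1 : (1:ℝ) ≤ b := by exact_mod_cast hb
  have hlb := Real.log_nonneg hb1
  set K : ℝ := Fintype.card ι * log b with hK
  have hK0 : 0 ≤ K := by positivity
  set D := C0 ι (R2 ι R) with hD
  have hD0 : 0 ≤ D := C0_nonneg _
  set u : ℕ → ℝ := fun n => D - psi3 b t τ S C n with hu
  have hsub : Subadditive u := by
    intro k l
    have := Zp_psi_super hC hS hb ht hτ k l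
    rw [hu]
    simp only
    linarith
  have hlow : ∀ n : ℕ, -K ≤ u n / n := by
    intro n
    rcases Nat.eq_zero_or_pos n with h0 | h0
    · rw [h0]; simp [hK0]
    · have hn : (0:ℝ) < n := by exact_mod_cast h0
      rw [le_div_iff₀ hn]
      have := Zp_psi_le hC hS hb ht hτ n
      rw [hu]
      simp only
      nlinarith
  have hbdd : BddBelow (Set.range fun n : ℕ => u n / n) :=
    ⟨-K, by rintro _ ⟨n, rfl⟩; exact hlow n⟩
  have hlim := hsub.tendsto_lim hbdd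
  have h1 : -K ≤ hsub.lim := ge_of_tendsto hlim (Filter.Eventually.of_forall hlow)
  have h2 : hsub.lim ≤ 0 := by
    have h3 : Filter.Tendsto (fun n : ℕ => D / n) Filter.atTop (nhds 0) :=
      tendsto_const_nhds.div_atTop tendsto_natCast_atTop_atTop
    refine le_of_tendsto_of_tendsto hlim h3 (Filter.Eventually.of_forall fun n => ?_)
    have := Zp_psi_nonneg hC hS hb ht hτ n
    exact div_le_div_of_nonneg_right (by rw [hu]; simp only; linarith) (by positivity)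
  refine ⟨- hsub.lim, by linarith, by linarith, fun n => ?_, fun η hη => ?_⟩
  · rcases Nat.eq_zero_or_pos n with h0 | h0
    · have := Zp_psi_le hC hS hb ht hτ n
      rw [h0] at this ⊢
      simp only [Nat.cast_zero, zero_mul, mul_zero] at this ⊢
      linarith
    · have hn : (0:ℝ) < n := by exact_mod_cast h0
      have h3 := hsub.lim_le_div hbdd (n := n) (by omega)
      rw [le_div_iff₀ hn] at h3
      have e : u n = D - psi3 b t τ S C n := rfl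
      linarith
  · have h3 : ∀ᶠ n : ℕ in Filter.atTop, u n / n < hsub.lim + η :=
      hlim.eventually (gt_mem_nhds (by linarith))
    obtain ⟨n0, hn0⟩ := Filter.eventually_atTop.1 h3
    refine ⟨K * (n0 + 1), by positivity, fun n => ?_⟩
    rcases lt_or_ge n (n0 + 1) with h4 | h4
    · have h5 := Zp_psi_nonneg hC hS hb ht hτ n
      have h6 : (n:ℝ) ≤ n0 + 1 := by exact_mod_cast h4.le
      have h7 : (-hsub.lim - η) * n ≤ K * n := by
        refine mul_le_mul_of_nonneg_right ?_ (by positivity)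
        linarith
      have h8 : K * n ≤ K * (n0 + 1) := mul_le_mul_of_nonneg_left h6 hK0
      linarith
    · have h5 := hn0 n (by omega)
      have hn : (0:ℝ) < n := by exact_mod_cast (by omega : 0 < n)
      rw [div_lt_iff₀ hn] at h5
      have e : u n = D - psi3 b t τ S C n := rfl
      have h6 : 0 ≤ K * (n0 + 1) := by positivity
      linarith

/-- One step. -/
theorem Zp_gain_step [NeZero b] [Nonempty ι] (hC : Zc b R C) (hS : ∀ Z l, 0 ≤ S Z l) (hb : 2 ≤ b) (ht : |t| ≤ 1)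
    (hZ : Z ∈ C) (hP : Adm I P) {k q : ℕ} {K : ℕ} (hK : 1 + R2 ι R + 1 ≤ K)
    (hτ : τ ≤ log b) {low : ℝ} (hlow : low ≤ psi3 b t τ S C q) :
    low - C1 ι (R2 ι R) K + τ * q *
        iv b (fun y => P y = y) (dq b q) q ((k + q : ℕ) : ℤ) (pf P Z t) ≤
      (En b (pf P Z t) (k + q) - En b (pf P Z t) k) + q * (log b - τ) * I.card +
        av (fun v : ι → Fin (b ^ k) => Pn b S q (zm (b ^ k) (dv v) Z)) := by
  have hbp : 0 < b := by omega
  obtain ⟨I', P', hP', e1, e2⟩ := choose_ext hb (inst_triv hbp (hC.bz Z hZ) ht hP 0 (k + q)) hK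
    (Finset.mem_singleton_self t)
  set J : ℝ := iv b (fun y => P y = y) (dq b q) q ((k + q : ℕ) : ℤ) (pf P Z t) with hJ
  set pen : ℝ := av (fun v : ι → Fin (b ^ k) => Pn b S q (zm (b ^ k) (dv v) Z)) with hpen
  have h1 : ∀ v : ι → Fin (b ^ k), low ≤ (En b (pf P' (zm (b ^ k) (dv v) Z) t) q +
      I'.card * q * (log b - τ)) + Pn b S q (zm (b ^ k) (dv v) Z) := fun v =>
    hlow.trans (Zp_psi_le_mem hC hS hbp ht hτ q (hC.zoom Z hZ k _ (dv_lt v)) hP')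
  have h2 : low ≤ av (fun v : ι → Fin (b ^ k) => En b (pf P' (zm (b ^ k) (dv v) Z) t) q) +
      I'.card * q * (log b - τ) + pen := by
    rw [hpen, ← av_const (Ω := ι → Fin (b ^ k)) low, ← av_const (Ω := ι → Fin (b ^ k))
      ((I'.card : ℝ) * q * (log b - τ)), ← av_add, ← av_add]
    exact av_mono h1
  rw [e1] at h2
  nlinarith

theorem Zp_gain_sum [NeZero b] [Nonempty ι] (hC : Zc b R C) (hS : ∀ Z l, 0 ≤ S Z l) (hb : 2 ≤ b) (ht : |t| ≤ 1)
    (hZ : Z ∈ C) (hP : Adm I P) {M q : ℕ} {K : ℕ} (hK : 1 + R2 ι R + 1 ≤ K)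
    (hτ : τ ≤ log b) {low : ℝ} (hlow : low ≤ psi3 b t τ S C q) :
    M * (low - C1 ι (R2 ι R) K) + τ * q * ∑ a ∈ Finset.range M,
        iv b (fun y => P y = y) (dq b q) q (((a + 1) * q : ℕ) : ℤ) (pf P Z t) ≤
      Vv b t τ S (M * q) Z I P := by
  have hbp : 0 < b := by omega
  have key : ∀ N : ℕ, N * (low - C1 ι (R2 ι R) K) + τ * q * ∑ a ∈ Finset.range N,
        iv b (fun y => P y = y) (dq b q) q (((a + 1) * q : ℕ) : ℤ) (pf P Z t) ≤
      (En b (pf P Z t) (N * q) - En b (pf P Z t) 0) + N * q * (log b - τ) * I.card +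
        ∑ a ∈ Finset.range N, av (fun w : ι → Fin (b ^ (a * q)) =>
          Pn b S q (zm (b ^ (a * q)) (dv w) Z)) := by
    intro N
    induction N with
    | zero => simp
    | succ N ih =>
      have h2 := Zp_gain_step hC hS hb ht hZ hP (k := N * q) (q := q) hK hτ hlow
      have e1 : N * q + q = (N + 1) * q := by ring
      rw [e1] at h2
      rw [Finset.sum_range_succ, Finset.sum_range_succ (fun a => av (fun w : ι → Fin (b ^ (a * q)) =>
          Pn b S q (zm (b ^ (a * q)) (dv w) Z)))]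
      push_cast at ih h2 ⊢
      linarith
  have h1 := key M
  refine h1.trans ?_
  have h3 := Pn_blocks (S := S) hbp hS q M Z
  unfold Vv Ee
  have h2 := ((hC.bz Z hZ).pf hbp ht hP).En_nonneg hbp 0
  push_cast
  nlinarith

end Pool.Agent.V7H68.HF
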