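import Pool.Agent.V7H68.HF.PCls

/-!
The smallest entropy rate of a class whose zooms are approximated by few functions, with penalties.
-/

namespace Pool.Agent.V7H68.HF

open Finset Real MeasureTheory SS MS UF HZ

set_option linter.unusedSectionVars false

variable {ι : Type} [Fintype ι] [DecidableEq ι] {b : ℕ}

theorem full3 [NeZero b] [Nonempty ι] (hb : 2 ≤ b) {R t : ℝ} {C : Set ((ι → ℝ) → ι → ℝ)}
    (hC : Zc b R C) (hR : 0 ≤ R) (ht : |t| ≤ 1) {A : ℕ} {hE : ℝ}
    (hE0 : 0 ≤ hE) {S : ((ι → ℝ) → ι → ℝ) → ℕ → ℝ} (hS : ∀ Z l, 0 ≤ S Z l)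
    (hGR : ∀ ε : ℝ, 0 < ε → ∃ᶠ ℓ : ℕ in Filter.atTop,
      (∀ Z ∈ C, t ∉ bdn b Z A ℓ ∨ Wc b (Fintype.card ι) A * ℓ ≤ S Z ℓ) ∧
      RCm b C (hE + ε) ((Fintype.card ι + 1) * (A + 1) + 1) ℓ)
    {δ : ℝ} (hδ : 0 < δ) {r : ℝ} (hr0 : 0 ≤ r)
    (hr1 : ∀ n : ℕ, psi3 b t (δ / (8 * Fintype.card ι)) S C n ≤ r * n + C0 ι (R2 ι (R + 2)))
    (hr2 : ∀ η : ℝ, 0 < η → ∃ D : ℝ, 0 ≤ D ∧ ∀ n : ℕ,
      (r - η) * n - D ≤ psi3 b t (δ / (8 * Fintype.card ι)) S C n) :
    Fintype.card ι * log b - hE - δ ≤ r := by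
  by_contra hcon
  rw [not_le] at hcon
  have hbp : 0 < b := by omega
  have hb0 : (0:ℝ) < b := by exact_mod_cast hbp
  have hb1 : (1:ℝ) < b := by exact_mod_cast (by omega : 1 < b)
  have hlb : 0 < log b := Real.log_pos hb1
  have hC' : Zc b (R + 2) C := ⟨fun Z hZ => (hC.bz Z hZ).mono (by linarith), hC.zoom⟩
  set m : ℝ := (Fintype.card ι : ℝ) with hm
  have hm1 : 1 ≤ m := by
    rw [hm]
    exact_mod_cast Fintype.card_pos
  set K : ℝ := m * log b with hK
  have hK0 : 0 < K := by positivity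
  set τ : ℝ := δ / (8 * m) with hτ
  have hτ0 : 0 < τ := by positivity
  have hτm : τ * m = δ / 8 := by
    rw [hτ]
    field_simp
  have hτb : τ ≤ log b := by
    rw [hτ, div_le_iff₀ (by positivity)]
    have e : log b * (8 * m) = 8 * K := by rw [hK]; ring
    rw [e]
    linarith
  set ε : ℝ := δ / 64 with hε
  have hε0 : 0 < ε := by positivity
  set A' : ℕ := (Fintype.card ι + 1) * (A + 1) + 1 with hA'
  set A1 : ℝ := A' + 1 with hA1
  have hA'0 : (0:ℝ) ≤ A' := Nat.cast_nonneg _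
  have hA10 : 1 ≤ A1 := by linarith
  set c1 : ℝ := 2 * log 2 + m * log 3 with hc1
  have hl2 : 0 < log (2:ℝ) := Real.log_pos (by norm_num)
  have hl3 : 0 < log (3:ℝ) := Real.log_pos (by norm_num)
  have hc10 : 0 < c1 := by positivity
  obtain ⟨Kc, hKc⟩ := exists_nat_ge (1 + R2 ι (R + 2) + 1)
  have hR2 := R2_nonneg (ι := ι) (show 0 ≤ R + 2 by linarith)
  set c0 := C0 ι (R2 ι (R + 2)) with hc0
  have hc00 : 0 ≤ c0 := C0_nonneg _
  set C1c := C1 ι (R2 ι (R + 2)) Kc with hC1c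
  have hC1c0 : 0 ≤ C1c := hc00.trans (C0_le_C1 hR2 Kc)
  -- first parameter
  set η : ℝ := ε * τ / (K * A1) with hη
  have hη0 : 0 < η := by positivity
  obtain ⟨Cη, hCη0, hCη⟩ := hr2 η hη0
  -- the step
  set X1 : ℝ := K / τ * (Cη + C1c) + c1 with hX1
  have hX10 : 0 ≤ X1 := by positivity
  obtain ⟨q0', hq0'⟩ := exists_nat_ge (A1 * X1 / ε)
  set q : ℕ := q0' + 1 with hq
  have hq1 : 1 ≤ q := by omega
  have hqr : (0:ℝ) < q := by exact_mod_cast hq1
  have hqX : A1 * X1 ≤ ε * q := by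
    rw [div_le_iff₀ hε0] at hq0'
    have : ((q:ℕ):ℝ) = q0' + 1 := by rw [hq]; push_cast; ring
    have e : ε * ((q0':ℝ) + 1) = q0' * ε + ε := by ring
    rw [this, e]
    linarith
  obtain ⟨Kd, hKdd⟩ := exists_nat_ge (max (1 + R2 ι (R + 2) + 1)
    (2 * (2 ^ Fintype.card ι * (b:ℝ) ^ q) + 2))
  have hKd : 1 + R2 ι (R + 2) + 1 ≤ Kd := (le_max_left _ _).trans hKdd
  have hKd2 : 2 * (2 ^ Fintype.card ι * (b:ℝ) ^ q) + 2 ≤ (Kd:ℝ) := (le_max_right _ _).trans hKdd
  set c3 := C3 ι (R2 ι (R + 2)) Kd with hc3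
  have hc30 : 0 ≤ c3 := C3_nonneg hR2 Kd
  set G0 : ℝ := 2 * c0 + 1 + 2 * c3 with hG0
  have hG00 : 0 ≤ G0 := by positivity
  set D : ℝ := 2 / dq b q with hD
  have hD0 : 0 < D := by have := dq_pos hb q; positivity
  set lam : ℝ := ε / (4 * K * A1 * D) with hlam
  have hl0 : 0 < lam := by positivity
  have hlam1 : K * A1 * D * (4 * lam) = ε := by
    rw [hlam]
    field_simp
  have hKK := KK_nonneg ι
  obtain ⟨r', hr'1, hr'2⟩ : ∃ r' : ℕ, 2 * ((b:ℝ) ^ r')⁻¹ ≤ 1 ∧
      K * A1 * D * (KK ι * (2 * ((b:ℝ) ^ r')⁻¹) / lam) ≤ ε := by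
    obtain ⟨r', hr'⟩ := exists_pow_lt_of_lt_one
      (show 0 < min (1 / 2) (ε * lam / (2 * (K * A1 * D * (KK ι + 1)))) by positivity)
      (show (b:ℝ)⁻¹ < 1 by exact inv_lt_one_of_one_lt₀ hb1)
    rw [inv_pow] at hr'
    have e1 := hr'.le.trans (min_le_left _ _)
    have e2 := hr'.le.trans (min_le_right _ _)
    refine ⟨r', by linarith, ?_⟩
    rw [le_div_iff₀ (by positivity)] at e2
    have e3 : K * A1 * D * (KK ι * (2 * ((b:ℝ) ^ r')⁻¹) / lam) =
        (((b:ℝ) ^ r')⁻¹ * (2 * (K * A1 * D * KK ι))) / lam := by ring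
    rw [e3, div_le_iff₀ hl0]
    refine le_trans ?_ e2
    refine mul_le_mul_of_nonneg_left ?_ (by positivity)
    have : K * A1 * D * KK ι ≤ K * A1 * D * (KK ι + 1) :=
      mul_le_mul_of_nonneg_left (by linarith) (by positivity)
    linarith
  set a0 : ℕ := r' + 1 with ha0
  have hra0 : r' ≤ a0 * q := by
    have : r' * 1 ≤ a0 * q := Nat.mul_le_mul (by omega) hq1
    omega
  set V : ℝ := q * K * D * (r' / lam) with hV
  have hV0 : 0 ≤ V := by positivity
  set W : ℝ := V * (1 + A1) + K / τ + A1 with hW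
  have hW0 : 0 < W := by positivity
  set η1 : ℝ := ε / W with hη1
  have hη10 : 0 < η1 := by positivity
  have hη1W : η1 * W = ε := by rw [hη1]; field_simp
  have hWe : ε = V * (η1 * (1 + A1)) + η1 * (K / τ) + η1 * A1 := by
    rw [← hη1W, hW]
    ring
  have hwa : 0 ≤ V * (η1 * (1 + A1)) := by positivity
  have hwb : 0 ≤ η1 * (K / τ) := by positivity
  have hwc : 0 ≤ η1 * A1 := by positivity
  have hw1 : V * (η1 * (1 + A1)) ≤ ε := by linarith
  have hw2 : K / τ * η1 ≤ ε := by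
    rw [mul_comm]
    linarith
  have hw3 : η1 * A1 ≤ ε := by linarith
  obtain ⟨Cη1, hCη10, hCη1⟩ := hr2 η1 hη10
  -- the constants
  set Big : ℝ := (m * log (2 * Kc + 1) + a0 * (q * K)) + K / τ * (Cη1 + G0) +
    V * (2 * Cη1 + G0) + (Cη1 + G0) + (c0 + 1) with hBig
  have hlKc : 0 ≤ log (2 * (Kc:ℝ) + 1) := Real.log_nonneg (by
    have : (0:ℝ) ≤ Kc := by positivity
    linarith)
  -- a large level
  have hev : ∀ᶠ ℓ : ℕ in Filter.atTop, Big / ε < ℓ ∧
      ((Fintype.card ι + 1 : ℕ) : ℝ) ^ 2 * (Nat.factorial (Fintype.card ι + 1)) *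
      (2 * ((R + 2) + 1) + 1) ^ (Fintype.card ι + 1) < (b:ℝ) ^ ℓ ∧ 1 ≤ ℓ ∧ q * a0 ≤ ℓ := by
    have e3 : ∀ᶠ ℓ : ℕ in Filter.atTop, Big / ε < ℓ :=
      tendsto_natCast_atTop_atTop.eventually_gt_atTop _
    have e4 : ∀ᶠ ℓ : ℕ in Filter.atTop, ((Fintype.card ι + 1 : ℕ) : ℝ) ^ 2 *
      (Nat.factorial (Fintype.card ι + 1)) *
      (2 * ((R + 2) + 1) + 1) ^ (Fintype.card ι + 1) < (b:ℝ) ^ ℓ :=
      (tendsto_pow_atTop_atTop_of_one_lt hb1).eventually_gt_atTop _
    filter_upwards [e3, e4, Filter.eventually_ge_atTop 1, Filter.eventually_ge_atTop (q * a0)]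
      with ℓ h3 h4 h5 h6
    exact ⟨h3, h4, h5, h6⟩
  obtain ⟨ℓ, ⟨hgood, hb1'⟩, hb3', hb4', hb5', hb6'⟩ := ((hGR ε hε0).and_eventually hev).exists
  set M : ℕ := A' * ℓ / q + 1 with hMdef
  have hMq1 : A' * ℓ ≤ M * q := by
    have e1 := Nat.div_add_mod (A' * ℓ) q
    have e2 := Nat.mod_lt (A' * ℓ) (show 0 < q by omega)
    have e3 : M * q = q * (A' * ℓ / q) + q := by rw [hMdef]; ring
    omega
  have hMq2 : M * q ≤ A' * ℓ + q := by
    have e1 := Nat.div_mul_le_self (A' * ℓ) q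
    have e3 : M * q = A' * ℓ / q * q + q := by rw [hMdef]; ring
    omega
  have hA'1n : 1 ≤ A' := by rw [hA']; omega
  have hqℓ : q ≤ ℓ := by
    have : q * 1 ≤ q * a0 := Nat.mul_le_mul_left _ (by omega)
    omega
  have ha0M : a0 ≤ M := by
    have e1 : a0 * q ≤ M * q := by
      have e2 : 1 * ℓ ≤ A' * ℓ := Nat.mul_le_mul_right _ hA'1n
      have e3 : q * a0 = a0 * q := mul_comm _ _
      omega
    exact Nat.le_of_mul_le_mul_right e1 (by omega)
  have hℓr : (0:ℝ) < ℓ := by exact_mod_cast hb5'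
  have hBigℓ : Big ≤ ε * ℓ := by
    rw [div_lt_iff₀ hε0] at hb3'
    linarith
  set L : ℝ := (M:ℝ) * q with hL
  have hL0 : 0 ≤ L := by positivity
  have hLA : L ≤ A1 * ℓ := by
    have e1 : ((M * q : ℕ) : ℝ) ≤ ((A' * ℓ + q : ℕ) : ℝ) := by exact_mod_cast hMq2
    have e2 : (q:ℝ) ≤ ℓ := by exact_mod_cast hqℓ
    push_cast at e1
    rw [hA1, add_mul, one_mul]
    linarith
  have hMX : (M:ℝ) * X1 ≤ ε * ℓ := by
    have e1 : (M:ℝ) * (A1 * X1) ≤ M * (ε * q) := mul_le_mul_of_nonneg_left hqX (by positivity)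
    have e2 : (M:ℝ) * (ε * q) ≤ A1 * (ε * ℓ) := by
      rw [show (M:ℝ) * (ε * q) = ε * L by rw [hL]; ring]
      have := mul_le_mul_of_nonneg_left hLA hε0.le
      linarith
    have e3 : A1 * (M * X1) ≤ A1 * (ε * ℓ) := by linarith
    exact le_of_mul_le_mul_left e3 (by linarith)
  -- the near-minimizer
  set ns : ℕ := ℓ + M * q with hns
  have hnsr : (ns:ℝ) = ℓ + L := by
    rw [hns, hL]
    push_cast
    ring
  have hnearly : ∃ x ∈ Vals3 b t τ S C ns, x < psi3 b t τ S C ns + 1 := by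
    refine exists_lt_of_csInf_lt ⟨_, Or.inl rfl⟩ ?_
    unfold psi3
    linarith
  obtain ⟨x, hx, hxlt⟩ := hnearly
  have hxr : x ≤ r * ns + c0 + 1 := by
    have := hr1 ns
    linarith
  have hconst : 0 ≤ m * log (2 * Kc + 1) + a0 * (q * K) := by positivity
  have hconst2 : 0 ≤ K / τ * (Cη1 + G0) := by positivity
  have hconst3 : 0 ≤ V * (2 * Cη1 + G0) := by positivity
  rcases hx with hx | ⟨f, hfC, I, P, hP, hx⟩
  · -- the trivial value is too large
    rw [← hm, ← hK] at hx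
    have e1 : (K - r) * ns ≤ c0 + 1 := by
      rw [hx] at hxr
      linarith
    have e2 : δ * ℓ ≤ (K - r) * ns := by
      rw [hnsr]
      exact mul_le_mul (by linarith) (by linarith) hℓr.le (by linarith)
    have e3 : c0 + 1 ≤ ε * ℓ := by
      refine le_trans ?_ hBigℓ
      rw [hBig]
      linarith
    have e4 : ε * ℓ < δ * ℓ := mul_lt_mul_of_pos_right (by linarith) hℓr
    linarith
  · rw [hx] at hxr
    have hbz := hC.bz f hfC
    -- a bad near minimiser has a large penalty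
    rcases hgood f hfC with hgf | hgf
    swap
    · have e1 : S f ℓ ≤ Pn b S ns f := Pn_ge hbp hS hbz (by omega) (by omega)
      have e2 := Ee_nonneg hbp hbz ht hP hτb ns
      have e3 : Wc b (Fintype.card ι) A = K * (1 + A1) + K := by
        unfold Wc
        rw [hK, hA1, hA', hm]
        push_cast
        ring
      have e4 : r * ns ≤ K * ((1 + A1) * ℓ) := by
        have e41 : (ns:ℝ) ≤ (1 + A1) * ℓ := by rw [hnsr]; linarith
        exact mul_le_mul (by linarith) e41 (by positivity) hK0.le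
      have e5 : c0 + 1 ≤ ε * ℓ := by
        refine le_trans ?_ hBigℓ
        rw [hBig]
        linarith
      have e6 : ε * ℓ < K * ℓ := mul_lt_mul_of_pos_right (by linarith) hℓr
      unfold Vv at hxr
      rw [e3] at hgf
      linarith
    obtain ⟨ψ, hψC, hcnt, hψ, hψm⟩ := hb1' f hfC (Pn b S (M * q))
    have hψb : ∀ w, Bz b R (ψ w) := fun w => hC.bz _ (hψC w)
    have hes : ((b:ℝ) ^ (A' * ℓ))⁻¹ ≤ 1 := inv_le_one_of_one_le₀ (one_le_pow₀ hb1.le)
    set f' := spl (b ^ ℓ) f ψ with hf'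
    have hbz' : Bz b (R + 2) f' := spl_bz hbp hbz hψb hes hψ
    have hzm : ∀ w : ι → Fin (b ^ ℓ), zm (b ^ ℓ) (dv w) f' = ψ w := fun w =>
      zm_spl (pow_pos hbp ℓ) f w (hψb w).zero (hψb w).off
    -- comparison of the entropies
    have hcmp1 : Ee b t τ ns f' I P ≤ Ee b t τ ns f I P + c3 := by
      have e1 := (En_spl hb hbz hψb hes hψ ht hP (n := ns) (E := (b:ℝ) ^ q) (by
        have e2 : ((b ^ ℓ : ℕ) : ℝ) = (b:ℝ) ^ ℓ := by push_cast; rfl
        rw [e2, ← mul_inv, ← pow_add, ← div_eq_mul_inv, div_le_iff₀ (by positivity), ← pow_add]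
        refine pow_le_pow_right₀ hb1.le ?_
        omega) hKd hKd2).2
      unfold Ee
      linarith
    have hcmp2 : Ee b t τ ℓ f I P ≤ Ee b t τ ℓ f' I P + c3 := by
      have e1 := (En_spl hb hbz hψb hes hψ ht hP (n := ℓ) (E := (b:ℝ) ^ q) (by
        have e2 : ((b ^ ℓ : ℕ) : ℝ) = (b:ℝ) ^ ℓ := by push_cast; rfl
        rw [e2, ← mul_assoc, mul_inv_cancel₀ (by positivity), one_mul]
        exact hes.trans (one_le_pow₀ hb1.le)) hKd hKd2).1
      unfold Ee
      linarith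
    -- lower bounds for the parts
    set bL : ℝ := Pn b S ℓ f with hbL
    have hbL0 : 0 ≤ bL := Pn_nonneg hS ℓ f
    set bB : ℝ := av (fun w : ι → Fin (b ^ ℓ) => Pn b S (M * q) (ψ w)) with hbB
    have hpen : bL + bB ≤ Pn b S ns f := by
      have e1 := Pn_super (S := S) hbp hS ℓ (M * q) f
      have e2 : bB ≤ av (fun w : ι → Fin (b ^ ℓ) => Pn b S (M * q) (zm (b ^ ℓ) (dv w) f)) :=
        av_mono hψm
      rw [hns, hbL]
      linarith
    set aL : ℝ := av (fun w : ι → Fin (b ^ ℓ) => Ee b t τ (M * q) (ψ w) I P) with haL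
    have e1 := Ee_super hbp hbz' ht hP τ ℓ (M * q)
    simp only [hzm] at e1
    rw [← haL] at e1
    have e2 : (r - η1) * ℓ - Cη1 ≤ Ee b t τ ℓ f' I P + c3 + bL := by
      have e21 := (hCη1 ℓ).trans (Zp_psi_le_mem hC hS hbp ht hτb ℓ hfC hP)
      unfold Vv at e21
      linarith
    have e3 : (r - η1) * L - Cη1 ≤ aL + bB := by
      rw [haL, hbB, ← av_add, ← av_const (Ω := ι → Fin (b ^ ℓ)) ((r - η1) * L - Cη1)]
      refine av_mono fun w => ?_
      have e4 := hCη1 (M * q)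
      push_cast at e4
      exact e4.trans (Zp_psi_le_mem hC hS hbp ht hτb (M * q) (hψC w) hP)
    have U0 : Ee b t τ (ℓ + M * q) f' I P + (bL + bB) ≤ r * (ℓ + L) + c0 + 1 + c3 := by
      unfold Vv at hxr
      rw [← hnsr]
      linarith
    have U1 : Ee b t τ ℓ f' I P ≤ r * ℓ + η1 * L + (Cη1 + G0) := by
      rw [hG0]
      linarith
    have U2 : aL + bB ≤ r * L + η1 * ℓ + (Cη1 + G0) := by
      rw [hG0]
      linarith
    -- losses
    have hI := inst_triv hbp hbz' ht hP 0 (ℓ + M * q)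
    have e5 := loss_sum hb hI τ
    simp only [Psi_single, hzm] at e5
    rw [← haL] at e5
    have U3 : ∑ i ∈ Finset.range (M * q), ∑ s ∈ {t}, (1:ℝ) * gl b ℓ (pf P f' s) (i + 1) ≤
        η1 * (ℓ + L) + (2 * Cη1 + G0) := by
      refine e5.trans ?_
      rw [hG0]
      linarith
    -- invariance
    have U4 : M * (((r - η) * q - Cη) - C1c) + τ * q * ∑ a ∈ Finset.range M,
        io b ℓ q P (pf P f' t) (a + 1) ≤ aL + bB := by
      have e6 : ∀ w : ι → Fin (b ^ ℓ), M * (((r - η) * q - Cη) - C1c) +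
          τ * q * ∑ a ∈ Finset.range M,
            iv b (fun y => P y = y) (dq b q) q (((a + 1) * q : ℕ) : ℤ)
              (zm (b ^ ℓ) (dv w) (pf P f' t)) ≤ Vv b t τ S (M * q) (ψ w) I P := by
        intro w
        have e7 := Zp_gain_sum hC' hS hb ht (hψC w) hP (M := M) hKc hτb (hCη q)
        simp only [zm_pf (pow_pos hbp ℓ) (dv_lt w), hzm]
        exact e7
      have e8 := av_mono e6
      rw [av_add, av_const, av_mul, av_sum] at e8
      unfold Vv at e8
      rw [av_add] at e8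
      exact e8
    set Sio : ℝ := ∑ a ∈ Finset.range M, io b ℓ q P (pf P f' t) (a + 1) with hSio
    set Spr : ℝ := ∑ a ∈ Finset.Ico a0 M, pr b ℓ q (pf P f' t) a with hSpr
    have V1 : q * K * Sio ≤ 4 * (ε * ℓ) := by
      have e6 : τ * q * Sio ≤ η * L + M * (Cη + C1c) + η1 * ℓ + (Cη1 + G0) := by
        have e7 : (M:ℝ) * (((r - η) * q - Cη) - C1c) = (r - η) * L - M * (Cη + C1c) := by
          rw [hL]
          ring
        rw [e7] at U4
        linarith
      have e7 : q * K * Sio = K / τ * (τ * q * Sio) := by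
        field_simp
      rw [e7]
      refine (mul_le_mul_of_nonneg_left e6 (by positivity)).trans ?_
      have e8 : K / τ * (η * L) ≤ ε * ℓ := by
        have e81 : K / τ * (η * (A1 * ℓ)) = ε * ℓ := by
          rw [hη]
          field_simp
        rw [← e81]
        have := mul_le_mul_of_nonneg_left hLA hη0.le
        exact mul_le_mul_of_nonneg_left this (by positivity)
      have e9 : K / τ * (M * (Cη + C1c)) ≤ ε * ℓ := by
        refine le_trans ?_ hMX
        rw [hX1]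
        have : 0 ≤ (M:ℝ) * c1 := by positivity
        linarith
      have e10 : K / τ * (η1 * ℓ) ≤ ε * ℓ := by
        have := mul_le_mul_of_nonneg_right hw2 hℓr.le
        linarith
      have e11 : K / τ * (Cη1 + G0) ≤ ε * ℓ := by
        refine le_trans ?_ hBigℓ
        rw [hBig]
        linarith
      linarith
    have V2 : q * K * (D * Spr) ≤ 4 * (ε * ℓ) := by
      have e6 := pr_sum hb hq1 hra0 hr'1 hl0 hI U3
      simp only [Finset.sum_singleton, one_mul] at e6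
      rw [← hSpr] at e6
      have e7 : q * K * (D * Spr) = q * K * D * Spr := by ring
      rw [e7]
      refine (mul_le_mul_of_nonneg_left e6 (by positivity)).trans ?_
      have e8 : q * K * D * (M * (KK ι * (2 * ((b:ℝ) ^ r')⁻¹) / lam + 4 * lam) +
          r' * (η1 * (ℓ + L) + (2 * Cη1 + G0)) / lam) ≤
          (K * A1 * D * (KK ι * (2 * ((b:ℝ) ^ r')⁻¹) / lam)) * ℓ +
          (K * A1 * D * (4 * lam)) * ℓ + (V * (η1 * (1 + A1))) * ℓ +
          V * (2 * Cη1 + G0) := by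
        have e9 : q * K * D * (M * (KK ι * (2 * ((b:ℝ) ^ r')⁻¹) / lam + 4 * lam)) =
            L * (K * D * (KK ι * (2 * ((b:ℝ) ^ r')⁻¹) / lam + 4 * lam)) := by rw [hL]; ring
        have e91 : q * K * D * (r' * (η1 * (ℓ + L) + (2 * Cη1 + G0)) / lam) =
            V * (η1 * (ℓ + L)) + V * (2 * Cη1 + G0) := by
          rw [hV]
          ring
        have e92 : L * (K * D * (KK ι * (2 * ((b:ℝ) ^ r')⁻¹) / lam + 4 * lam)) ≤
            (A1 * ℓ) * (K * D * (KK ι * (2 * ((b:ℝ) ^ r')⁻¹) / lam + 4 * lam)) :=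
          mul_le_mul_of_nonneg_right hLA (by positivity)
        have e93 : V * (η1 * (ℓ + L)) ≤ V * (η1 * (ℓ + A1 * ℓ)) := by
          refine mul_le_mul_of_nonneg_left ?_ hV0
          exact mul_le_mul_of_nonneg_left (by linarith) hη10.le
        rw [mul_add, e9, e91]
        have e94 : (A1 * ℓ) * (K * D * (KK ι * (2 * ((b:ℝ) ^ r')⁻¹) / lam + 4 * lam)) =
            (K * A1 * D * (KK ι * (2 * ((b:ℝ) ^ r')⁻¹) / lam)) * ℓ +
            (K * A1 * D * (4 * lam)) * ℓ := by ring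
        have e95 : V * (η1 * (ℓ + A1 * ℓ)) = (V * (η1 * (1 + A1))) * ℓ := by ring
        linarith
      refine e8.trans ?_
      rw [hlam1]
      have e10 := mul_le_mul_of_nonneg_right hr'2 hℓr.le
      have e11 := mul_le_mul_of_nonneg_right hw1 hℓr.le
      have e12 : V * (2 * Cη1 + G0) ≤ ε * ℓ := by
        refine le_trans ?_ hBigℓ
        rw [hBig]
        linarith
      linarith
    have hbad : t ∉ bdn b f' A ℓ := by
      rw [hf', bdn_spl hbp (fun w => (hψb w).zero)]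
      exact hgf
    have e6 := single2 hb hbz' (A := A) (ℓ := ℓ) le_rfl ht hbad hP (q := q) ha0M hMq1 hb4' hKc
    simp only [hzm] at e6
    rw [← hm, ← hK, ← hc1, ← hD] at e6
    have hcard : ((I.card : ℕ) : ℝ) ≤ m := by
      rw [hm]
      exact_mod_cast hP.card_le
    have hB0 : 0 ≤ (q:ℝ) * K := by positivity
    have e61 : ∑ a ∈ Finset.Ico a0 M, (io b ℓ q P (pf P f' t) a + D * pr b ℓ q (pf P f' t) a) *
        (q * K) ≤ q * K * Sio + q * K * (D * Spr) := by
      rw [← Finset.sum_mul, Finset.sum_add_distrib, ← Finset.mul_sum, ← hSpr]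
      have h6 : ∑ a ∈ Finset.Ico a0 M, io b ℓ q P (pf P f' t) a ≤ Sio := by
        have e1 : Sio = ∑ a ∈ Finset.Ico 1 (M + 1), io b ℓ q P (pf P f' t) a := by
          rw [hSio, Finset.sum_Ico_eq_sum_range]
          simp only [Nat.add_sub_cancel]
          refine Finset.sum_congr rfl fun a _ => ?_
          rw [add_comm 1 a]
        rw [e1]
        refine Finset.sum_le_sum_of_subset_of_nonneg ?_ fun a _ _ => io_nonneg _ _ _ _ _
        intro a ha
        rw [Finset.mem_Ico] at ha ⊢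
        omega
      have h7 := mul_le_mul_of_nonneg_right h6 hB0
      linarith
    have e62 : Ee b t τ ℓ f' I P = En b (pf P f' t) ℓ + I.card * ℓ * log b - τ * ℓ * I.card := by
      unfold Ee
      ring
    have e63 : τ * ℓ * I.card ≤ τ * ℓ * m := mul_le_mul_of_nonneg_left hcard (by positivity)
    have e64 : (m - I.card) * ℓ * log b = K * ℓ - I.card * ℓ * log b := by rw [hK]; ring
    rw [e64] at e6
    have e9 : τ * ℓ * m = 8 * (ε * ℓ) := by
      rw [show τ * ℓ * m = τ * m * ℓ by ring, hτm, hε]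
      ring
    have e10 : (M:ℝ) * c1 ≤ ε * ℓ := by
      refine le_trans ?_ hMX
      rw [hX1]
      have : 0 ≤ (M:ℝ) * (K / τ * (Cη + C1c)) := by positivity
      linarith
    have e11 : m * log (2 * Kc + 1) + a0 * (q * K) ≤ ε * ℓ := by
      refine le_trans ?_ hBigℓ
      rw [hBig]
      linarith
    have e12 : η1 * L ≤ ε * ℓ := by
      have e121 := mul_le_mul_of_nonneg_right hw3 hℓr.le
      have e122 := mul_le_mul_of_nonneg_left hLA hη10.le
      linarith
    have e13 : Cη1 + G0 ≤ ε * ℓ := by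
      refine le_trans ?_ hBigℓ
      rw [hBig]
      linarith
    have e14 : (K - hE - r) * ℓ ≤ 22 * (ε * ℓ) := by
      linarith
    have e15 : δ * ℓ < (K - hE - r) * ℓ := mul_lt_mul_of_pos_right (by linarith) hℓr
    have e16 : 64 * (ε * ℓ) = δ * ℓ := by rw [hε]; ring
    have e17 : 0 < ε * ℓ := by positivity
    linarith

end Pool.Agent.V7H68.HF
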