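import Pool.Agent.V7H68.HF.Spec2

/-!
The penalty is superadditive.
-/

namespace Pool.Agent.V7H68.HF

open Finset Real MeasureTheory SS MS UF HZ Filter

set_option linter.unusedSectionVars false

variable {ι : Type} [Fintype ι] [DecidableEq ι] {b : ℕ}

/-- Words of length `k + i`. -/
def wsp (b k i : ℕ) (ι : Type) : (ι → Fin (b ^ k)) × (ι → Fin (b ^ i)) ≃ (ι → Fin (b ^ (k + i))) :=
  (Equiv.arrowProdEquivProdArrow _ _ _).symm.trans
    (Equiv.arrowCongr (Equiv.refl ι) (finProdFinEquiv.trans (finCongr (pow_add b k i).symm)))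

theorem wsp_val (k i : ℕ) (w : ι → Fin (b ^ k)) (v : ι → Fin (b ^ i)) (j : ι) :
    ((wsp b k i ι (w, v) j : Fin (b ^ (k + i))) : ℕ) = b ^ i * w j + v j := by
  simp [wsp, Equiv.arrowProdEquivProdArrow, Equiv.arrowCongr, finProdFinEquiv]
  ring

theorem av_split (k i : ℕ) (F : (ι → ℕ) → ℝ) :
    av (fun w : ι → Fin (b ^ (k + i)) => F (dv w)) = av (fun w : ι → Fin (b ^ k) =>
      av (fun v : ι → Fin (b ^ i) => F (fun j => b ^ i * dv w j + dv v j))) := by
  unfold av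
  rw [← (wsp b k i ι).sum_comp, Fintype.sum_prod_type]
  refine Finset.sum_congr rfl fun w _ => ?_
  rw [Finset.mul_sum]
  refine Finset.sum_congr rfl fun v _ => ?_
  have h1 : dv (wsp b k i ι (w, v)) = fun j => b ^ i * dv w j + dv v j := by
    funext j
    exact wsp_val k i w v j
  beta_reduce
  rw [h1, ← mul_assoc]
  congr 1
  rw [← Fintype.card_congr (wsp b k i ι), Fintype.card_prod]
  push_cast
  rw [mul_inv]

variable {S : ((ι → ℝ) → ι → ℝ) → ℕ → ℝ}

theorem Pn_nonneg (hS : ∀ Z l, 0 ≤ S Z l) (n : ℕ) (Z : (ι → ℝ) → ι → ℝ) : 0 ≤ Pn b S n Z :=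
  Finset.sum_nonneg fun j _ => av_nonneg fun w => Finset.sum_nonneg fun l _ => hS _ l

theorem Pn_super (hb : 0 < b) (hS : ∀ Z l, 0 ≤ S Z l) (k l : ℕ) (Z : (ι → ℝ) → ι → ℝ) :
    Pn b S k Z + av (fun w : ι → Fin (b ^ k) => Pn b S l (zm (b ^ k) (dv w) Z)) ≤
      Pn b S (k + l) Z := by
  unfold Pn
  rw [Finset.sum_range_add]
  refine add_le_add ?_ (le_of_eq ?_)
  · refine Finset.sum_le_sum fun j _ => av_mono fun w => ?_
    exact Finset.sum_le_sum_of_subset_of_nonneg (Finset.range_subset_range.2 (by omega))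
      fun i _ _ => hS _ i
  · rw [av_sum]
    refine Finset.sum_congr rfl fun i hi => ?_
    rw [Finset.mem_range] at hi
    have e1 : k + l - (k + i) = l - i := by omega
    rw [e1]
    have h1 := av_split (b := b) (ι := ι) k i fun z => ∑ l' ∈ range (l - i + 1),
      S (zm (b ^ (k + i)) z Z) l'
    rw [h1]
    congr 1
    funext w
    congr 1
    funext v
    refine Finset.sum_congr rfl fun l' _ => ?_
    rw [zm_zm (pow_pos hb k) (pow_pos hb i) (dv w) (dv v) (dv_lt v), ← pow_add]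

theorem Pn_ge (hb : 0 < b) (hS : ∀ Z l, 0 ≤ S Z l) {R : ℝ} {Z : (ι → ℝ) → ι → ℝ}
    (hZ : Bz b R Z) {ℓ n : ℕ} (hn : 1 ≤ n) (hℓ : ℓ ≤ n) : S Z ℓ ≤ Pn b S n Z := by
  have h1 : ∀ w : ι → Fin (b ^ 0), zm (b ^ 0) (dv w) Z = Z := by
    intro w
    refine (congrArg (fun N => zm N (dv w) Z) (pow_zero b)).trans ?_
    refine zm_one hZ.zero hZ.off fun i => ?_
    have := dv_lt w i
    simpa using this
  have : Nonempty (ι → Fin (b ^ 0)) := ⟨fun _ => ⟨0, by simp⟩⟩
  have h2 : av (fun w : ι → Fin (b ^ 0) => ∑ l ∈ range (n - 0 + 1), S (zm (b ^ 0) (dv w) Z) l) =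
      ∑ l ∈ range (n + 1), S Z l := by
    simp only [h1, Nat.sub_zero]
    exact av_const _
  have h3 : S Z ℓ ≤ ∑ l ∈ range (n + 1), S Z l :=
    Finset.single_le_sum (f := fun l => S Z l) (fun l _ => hS _ l)
      (Finset.mem_range.2 (by omega))
  refine h3.trans ?_
  rw [← h2]
  unfold Pn
  exact Finset.single_le_sum (f := fun j => av (fun w : ι → Fin (b ^ j) =>
    ∑ l ∈ range (n - j + 1), S (zm (b ^ j) (dv w) Z) l)) (fun j _ => av_nonneg fun w =>
    Finset.sum_nonneg fun l _ => hS _ l) (Finset.mem_range.2 (by omega))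

theorem Pn_blocks (hb : 0 < b) (hS : ∀ Z l, 0 ≤ S Z l) (q M : ℕ) (Z : (ι → ℝ) → ι → ℝ) :
    ∑ a ∈ range M, av (fun w : ι → Fin (b ^ (a * q)) => Pn b S q (zm (b ^ (a * q)) (dv w) Z)) ≤
      Pn b S (M * q) Z := by
  induction M with
  | zero => simp [Pn]
  | succ M ih =>
    rw [Finset.sum_range_succ, Nat.succ_mul]
    have h1 := Pn_super (S := S) hb hS (M * q) q Z
    linarith

end Pool.Agent.V7H68.HF
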