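import Mathlib

set_option autoImplicit false

/-!
Statements of two pieces which need only Mathlib.
-/

namespace Pool.Agent.V7H68.HF

open Finset Real MeasureTheory Filter

/-- LLN: averages over the descendants of the cells of a random branch are bounded by the values
along the branch (law of large numbers for bounded martingale differences).  `u` is a random point
of the unit cube, the cell of level `k` has the index `⌊b^k u i⌋₊`. -/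
def S_LLN : Prop := ∀ (ι : Type) [Fintype ι] [DecidableEq ι] (b q : ℕ), 2 ≤ b → 1 ≤ q →
  ∀ (B : ℕ → (ι → ℕ) → ℝ) (L : ℝ), (∀ k z, 0 ≤ B k z ∧ B k z ≤ L) →
  ∀ᵐ u ∂(volume.restrict {u : ι → ℝ | ∀ i, 0 ≤ u i ∧ u i < 1}), ∀ ε : ℝ, 0 < ε →
    ∀ᶠ N : ℕ in atTop,
    ∑ n ∈ range N, ∑ j ∈ range q, (((b:ℝ) ^ j) ^ Fintype.card ι)⁻¹ * ∑ w : ι → Fin (b ^ j),
        B (q * n + j) (fun i => b ^ j * ⌊(b:ℝ) ^ (q * n) * u i⌋₊ + (w i : ℕ)) ≤
      ∑ n ∈ range N, ∑ j ∈ range q, B (q * n + j) (fun i => ⌊(b:ℝ) ^ (q * n + j) * u i⌋₊) + ε * N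

open Classical in
/-- FQ1: if the sum of the upper densities of the colours is at most `b^(d l)` and the exceptional
sets are small, then for almost every `t` exceptional levels are rare. -/
def S_FQ1 : Prop := ∀ (d b : ℕ), 2 ≤ b → ∀ (C : ℝ) (Λ : Set ℕ) (p : ℕ → ℕ)
  (col : (l : ℕ) → ℕ → Fin (p l)) (E : (l : ℕ) → Fin (p l) → Set ℝ),
  (∀ l a, MeasurableSet (E l a)) →
  (∀ l ∈ Λ, ∀ a, volume (E l a) ≤ ENNReal.ofReal (C * ((b:ℝ) ^ ((d + 1) * l))⁻¹)) →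
  (∀ l ∈ Λ, ∑ a, limsup (fun N : ℕ => (N:ℝ)⁻¹ *
    ((((range N).filter fun k => col l k = a).card : ℕ) : ℝ)) atTop ≤ (b:ℝ) ^ (d * l)) →
  ∀ᵐ t : ℝ, ∀ ε : ℝ, 0 < ε → ∀ᶠ l0 : ℕ in atTop, ∀ L : ℕ, ∀ᶠ N : ℕ in atTop,
    ∑ k ∈ range N, ∑ l ∈ Finset.Icc l0 L, (if l ∈ Λ ∧ t ∈ E l (col l k) then (l:ℝ) else 0) ≤ ε * N

end Pool.Agent.V7H68.HF
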