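import Pool.Agent.V7H68.MS.Frost

set_option autoImplicit false

/-!
Statement of the weighted version of `MS.frost`.
-/

namespace Pool.Agent.V7H68.HF

open Finset Real MeasureTheory SS MS Filter
open scoped ENNReal

/-- The cell of level `k` which contains `u`. -/
noncomputable def cl {ι : Type} (β k : ℕ) (u : ι → ℝ) : St ι := (k, fun i => ⌊(β:ℝ) ^ k * u i⌋₊)

/-- FRO: the weighted version of `MS.frost`: the entropy of the labels of the cell `x` is at least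
`h - dd x`, and the average of `dd` along the branches is at most `ε`. -/
def S_FRO : Prop := ∀ (ι : Type) [Fintype ι] [DecidableEq ι] (β : ℕ), 2 ≤ β →
  ∀ (X : (ι → ℝ) → ι → ℝ), AEMeasurable X (volume.restrict (cube ι)) →
  ∀ (h R : ℝ) (K : ℕ), R + 2 ≤ K → ∀ (σ σ' ε : ℝ), 0 ≤ σ → σ < σ' → 0 ≤ ε →
  Fintype.card ι * log (2 * K + 1) + σ' * log β + 2 + 4 * ε ≤ h →
  ∀ (dd : St ι → ℝ), (∀ x, 0 ≤ dd x) → ∀ (Y : Set (ι → ℝ)), Y ⊆ cube ι → volume Y ≠ 0 →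
  ∀ (n0 : ℕ),
  (∀ u ∈ Y, ∀ x : St ι, n0 ≤ x.1 → u ∈ cell β x → h - dd x ≤ HH (clab β X) x ∧
    ∀ v ∈ cell β x, ‖X v - X (corner β x)‖ ≤ R / (β:ℝ) ^ x.1) →
  (∀ u ∈ Y, ∀ n : ℕ, n0 ≤ n → ∑ i ∈ range n, dd (cl β i u) ≤ ε * n) →
  μH[σ] (X '' Y) ≠ 0

end Pool.Agent.V7H68.HF
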