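import Pool.Agent.V7H68.HZ.Img2
import Pool.Agent.V7H68.HF.Spec0
import Pool.Agent.V7H68.HF.Spec1

set_option autoImplicit false

/-!
Statements of the other pieces.
-/

namespace Pool.Agent.V7H68.HF

open Finset Real MeasureTheory SS MS UF HZ Filter
open scoped ENNReal

section defs

variable {ι : Type} [Fintype ι] [DecidableEq ι]

/-- The descendant of `x`, `j` levels further down. -/
def sub (b j : ℕ) (x : St ι) (w : ι → Fin (b ^ j)) : St ι :=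
  (x.1 + j, fun i => b ^ j * x.2 i + (w i : ℕ))

/-- The penalty of the first `n` levels; `S Z l` is the penalty of the function `Z` at the level
`l`. -/
noncomputable def Pn (b : ℕ) (S : ((ι → ℝ) → ι → ℝ) → ℕ → ℝ) (n : ℕ)
    (Z : (ι → ℝ) → ι → ℝ) : ℝ :=
  ∑ j ∈ range n, av (fun w : ι → Fin (b ^ j) => ∑ l ∈ range (n - j + 1),
    S (zm (b ^ j) (dv w) Z) l)

/-- The zooms of every function of the class at the level `ℓ` are approximated by few of them, and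
the approximating functions can be chosen with small values of a given functional. -/
def RCm (b : ℕ) (C : Set ((ι → ℝ) → ι → ℝ)) (hE : ℝ) (A' ℓ : ℕ) : Prop :=
  ∀ Z ∈ C, ∀ Φ : ((ι → ℝ) → ι → ℝ) → ℝ, ∃ ψ : (ι → Fin (b ^ ℓ)) → (ι → ℝ) → ι → ℝ,
      (∀ w, ψ w ∈ C) ∧ log ((Set.range ψ).ncard) ≤ hE * ℓ ∧
      (∀ w, ∀ y ∈ cube ι, ‖zm (b ^ ℓ) (dv w) Z y - ψ w y‖ ≤ ((b:ℝ) ^ (A' * ℓ))⁻¹) ∧
      ∀ w, Φ (ψ w) ≤ Φ (zm (b ^ ℓ) (dv w) Z)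

/-- The constant for the penalty. -/
noncomputable def Wc (b m A : ℕ) : ℝ := m * log b * ((m + 1) * (A + 1) + 4)

/-- A colouring of the cubes: cubes of the same colour have nearly equal zooms, and along almost
every branch the sum over the colours of their upper densities is at most `b^(d l)`. -/
def FrqAt (b d c l : ℕ) (g : (ι → ℝ) → ι → ℝ) : Prop :=
  ∃ (p : ℕ) (col : St ι → Fin p),
    (∀ x x' : St ι, (∀ i, x.2 i < b ^ x.1) → (∀ i, x'.2 i < b ^ x'.1) → col x = col x' →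
      ∀ y ∈ cube ι, ‖zm (b ^ x.1) x.2 g y - zm (b ^ x'.1) x'.2 g y‖ ≤
        2 * ((b:ℝ) ^ (c * l))⁻¹) ∧
    ∀ᵐ v ∂(volume.restrict (cube ι)), ∑ a, limsup (fun N : ℕ => (N:ℝ)⁻¹ *
      ((((range N).filter fun k => col (cl b k v) = a).card : ℕ) : ℝ)) atTop ≤ (b:ℝ) ^ (d * l)

open Classical in
/-- The weighted number of the levels between `l0` and `L` at which `t` is bad for the zoom into the
cell `x`, with the threshold multiplied by `r`. -/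
noncomputable def PS (b : ℕ) (g : (ι → ℝ) → ι → ℝ) (M : (ι → ℝ) →L[ℝ] (ι → ℝ)) (A : ℕ)
    (Λ : Set ℕ) (l0 L : ℕ) (r t : ℝ) (x : St ι) : ℝ :=
  ∑ l ∈ Finset.Icc l0 L, if l ∈ Λ ∧
    t ∈ bdr b (fM (zm (b ^ x.1) x.2 g) M) (r * ((b:ℝ) ^ (A * l))⁻¹) l then (l:ℝ) else 0

end defs

/-- BN: `HZ.bdn_near` with a free threshold and twice the distance. -/
def S_BN : Prop := ∀ (ι : Type) [Fintype ι] [DecidableEq ι] (b : ℕ), 2 ≤ b →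
  ∀ (R : ℝ) (f φ : (ι → ℝ) → ι → ℝ), Bz b R f → ∀ (A n : ℕ) (t ρ : ℝ), |t| ≤ 1 →
  ((b:ℝ) ^ (A * n))⁻¹ ≤ ρ →
  (∀ y ∈ cube ι, ‖f y - φ y‖ ≤ 2 * ((b:ℝ) ^ (((A + 1) * (Fintype.card ι + 1) + 2) * n))⁻¹) →
  (Nat.factorial (Fintype.card ι + 1) : ℝ) * (((Fintype.card ι + 1 : ℕ) : ℝ) *
    ((2 * R + 3) ^ (Fintype.card ι + 1) * 4)) ≤ (b:ℝ) ^ n →
  t ∈ bdr b f ρ n → t ∈ bdr b φ (2 * ρ) n

/-- RCM: `HZ.Cz_rc` with the choice of the functions. -/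
def S_RCM : Prop := ∀ (ι : Type) [Fintype ι] [DecidableEq ι] (b : ℕ), 2 ≤ b →
  ∀ (g : (ι → ℝ) → ι → ℝ) (c ℓ : ℕ), 1 ≤ ℓ → ∀ (h : ℝ), RelAt b (c + 1) ℓ h g →
  ∀ M : (ι → ℝ) →L[ℝ] (ι → ℝ), RCm b (Cz b g M) (h * log b) c ℓ

/-- ONE: the entropy of all functions of a class, with penalties. -/
def S_ONE : Prop := ∀ (ι : Type) [Fintype ι] [DecidableEq ι] [Nonempty ι] (b : ℕ), 2 ≤ b →
  ∀ (R t : ℝ) (C : Set ((ι → ℝ) → ι → ℝ)), Zc b R C → 0 ≤ R → |t| ≤ 1 →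
  ∀ (A : ℕ) (hE : ℝ), 0 ≤ hE →
  ∀ S : ((ι → ℝ) → ι → ℝ) → ℕ → ℝ, (∀ Z l, 0 ≤ S Z l) →
  (∀ ε : ℝ, 0 < ε → ∃ᶠ ℓ : ℕ in atTop,
    (∀ Z ∈ C, t ∉ bdn b Z A ℓ ∨ Wc b (Fintype.card ι) A * ℓ ≤ S Z ℓ) ∧
    RCm b C (hE + ε) ((Fintype.card ι + 1) * (A + 1) + 1) ℓ) →
  ∀ η : ℝ, 0 < η → ∃ N0 : ℕ, ∀ N : ℕ, N0 ≤ N → ∀ Z ∈ C,
    (Fintype.card ι * log b - hE - η) * N ≤ En b (ft Z t) N + Pn b S N Z

/-- FREQ (from FQ1 and BN): bad levels are rare along almost every branch, for almost all `t`. -/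
def S_FREQ : Prop := ∀ (ι : Type) [Fintype ι] [DecidableEq ι] (b : ℕ), 2 ≤ b →
  ∀ (R : ℝ) (g : (ι → ℝ) → ι → ℝ), Bz b R g → ∀ (d : ℕ) (Λ : Set ℕ),
  (∀ l ∈ Λ, FrqAt b d (Cd (Fintype.card ι) d) l g) →
  ∀ M : (ι → ℝ) → (ι → ℝ) →L[ℝ] (ι → ℝ), Measurable M →
  ∀ᵐ t : ℝ, ∀ᵐ v ∂(volume.restrict (cube ι)), |t| ≤ 1 → ∀ ε : ℝ, 0 < ε →
    ∀ᶠ l0 : ℕ in atTop, ∀ L : ℕ, ∀ᶠ N : ℕ in atTop,
      ∑ k ∈ range N, PS b g (M v) (Ad (Fintype.card ι) d) Λ l0 L 4 t (cl b k v) ≤ ε * N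

/-- IMG (from ONE, RCM, FREQ, FRO, LLN, BN): `HZ.images2` with frequencies. -/
def S_IMG : Prop := ∀ (ι : Type) [Fintype ι] [DecidableEq ι] [Nonempty ι] (b : ℕ), 2 ≤ b →
  ∀ (R h : ℝ), 0 ≤ h → ∀ (g : (ι → ℝ) → ι → ℝ), Bz b R g → ∀ (d : ℕ),
  (∀ ε : ℝ, 0 < ε → ∃ᶠ j : ℕ in atTop, FrqAt b d (Cd (Fintype.card ι) d) j g ∧
      RelAt b (Cd (Fintype.card ι) d) j (h + ε) g) →
  ∀ (F : (ι → ℝ) → ι → ℝ), (∀ᵐ v ∂(volume.restrict (cube ι)), DifferentiableAt ℝ F v) →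
    ∀ᵐ t : ℝ, |t| ≤ 1 → ∀ σ : ℝ, 0 ≤ σ → σ < Fintype.card ι - h → ∀ Y : Set (ι → ℝ),
      Y ⊆ cube ι → volume Y ≠ 0 → μH[σ] ((fun u => g u + F u + t • u) '' Y) ≠ 0

end Pool.Agent.V7H68.HF
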